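import Pool.Agent.W307.LK.Stm
import Pool.Agent.W50.LS.Kers

/-!
Project LK (owner helper307), part LK-KERL.
-/

set_option autoImplicit false

open scoped Classical

namespace Pool.Agent.W919.LK.KERL

open WeierstrassCurve Pool.Agent.W262.SH Pool.Agent.W307.LS Pool.Agent.W307.LK Pool.Agent.W50.LS

/-- restriction -/
theorem res_mem (W : WeierstrassCurve ℚ) (L : IntermediateField ℚ QB)
    {f : (QB ≃ₐ[ℚ] QB) → Pt W QB} (hf : f ∈ shaCoc W) :
    (fun σ : L.fixingSubgroup => f σ) ∈ shaCocK W L := by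
  obtain ⟨⟨h1, h2⟩, h3, h4⟩ := hf
  refine ⟨⟨h1.comp_continuous continuous_subtype_val, fun σ τ => h2 σ τ⟩, ?_, ?_⟩
  · intro p _ ι
    obtain ⟨P, hP⟩ := h3 p ι
    exact ⟨P, fun τ σ h => hP τ σ h⟩
  · intro ι
    obtain ⟨P, hP⟩ := h4 ι
    exact ⟨P, fun τ σ h => hP τ σ h⟩

/-- the possible differences -/
theorem gen_bound (a b : ℤ) (L : Type) [Field L] [Algebra ℚ L] (j : L →ₐ[ℚ] QB)
    (hfg : FGp (F4 a b) L) : ∃ Y : Finset (Pt (F4 a b) QB),
      Y.card ≤ 16 * 2 ^ rkp (F4 a b) L ∧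
      ∀ P : Pt (F4 a b) QB, (∃ R : Pt (F4 a b) L, act (F4 a b) j R = P + P) →
        ∃ q : Pt (F4 a b) L, P - act (F4 a b) j q ∈ Y := by
  have hj : Function.Injective (act (F4 a b) j) :=
    WeierstrassCurve.Affine.Point.map_injective (W' := (F4 a b).toAffine) j
  obtain ⟨Z, hZ, hZ'⟩ := tors2 a b
  obtain ⟨T, hT, hT'⟩ := cover hfg (Z.preimage (act (F4 a b) j) hj.injOn)
    (fun g hg => by
      rw [Finset.mem_preimage]
      apply hZ'
      rw [← map_add, hg, map_zero])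
  have hT4 : T.card ≤ 4 * 2 ^ rkp (F4 a b) L := by
    refine hT.trans (Nat.mul_le_mul_right _ ?_)
    have h1 : ((Z.preimage (act (F4 a b) j) hj.injOn).image (act (F4 a b) j)).card
        = (Z.preimage (act (F4 a b) j) hj.injOn).card :=
      Finset.card_image_of_injective _ hj
    rw [← h1]
    refine (Finset.card_le_card ?_).trans hZ
    intro x hx
    obtain ⟨g, hg, rfl⟩ := Finset.mem_image.1 hx
    exact Finset.mem_preimage.1 hg
  choose ZZ hZZ hZZ' using half a b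
  refine ⟨T.biUnion fun t => ZZ (act (F4 a b) j t), ?_, ?_⟩
  · refine (Finset.card_biUnion_le_card_mul T _ 4 fun t _ => hZZ _).trans ?_
    calc T.card * 4 ≤ 4 * 2 ^ rkp (F4 a b) L * 4 := Nat.mul_le_mul_right _ hT4
      _ = 16 * 2 ^ rkp (F4 a b) L := by ring
  · rintro P ⟨R, hR⟩
    obtain ⟨t, ht, q, hq⟩ := hT' R
    refine ⟨q, Finset.mem_biUnion.2 ⟨t, ht, hZZ' _ _ ?_⟩⟩
    rw [hq, map_add, map_add] at hR
    calc P - act (F4 a b) j q + (P - act (F4 a b) j q)
        = (P + P) - (act (F4 a b) j q + act (F4 a b) j q) := by abel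
      _ = act (F4 a b) j t := by rw [← hR]; abel

/-- the points fixed by the Galois group of `K` -/
theorem fixK (W : WeierstrassCurve ℚ) (K : IntermediateField ℚ QB) {R : Pt W QB}
    (hR : ∀ σ : K.fixingSubgroup, act W (σ : QB ≃ₐ[ℚ] QB).toAlgHom R = R) :
    ∃ P : Pt W K, act W K.val P = R := by
  have := galQB
  have hin : ∀ x : QB, (∀ σ ∈ K.fixingSubgroup, σ x = x) → x ∈ K := by
    intro x hx
    rw [← InfiniteGalois.fixedField_fixingSubgroup K, IntermediateField.mem_fixedField_iff]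
    exact hx
  rcases R with _ | ⟨x, y, h⟩
  · exact ⟨0, map_zero _⟩
  · have hxy : ∀ σ ∈ K.fixingSubgroup, σ x = x ∧ σ y = y := by
      intro σ hσ
      obtain ⟨h1, e1⟩ := act_some W σ.toAlgHom h
      have h2 := (hR ⟨σ, hσ⟩).symm.trans e1
      injection h2 with h3 h4
      exact ⟨h3.symm, h4.symm⟩
    have hx := hin x fun σ hσ => (hxy σ hσ).1
    have hy := hin y fun σ hσ => (hxy σ hσ).2
    have h0 : (W.baseChange K).toAffine.Nonsingular ⟨x, hx⟩ ⟨y, hy⟩ :=
      (W.toAffine.baseChange_nonsingular K.val.injective ⟨x, hx⟩ ⟨y, hy⟩).1 h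
    exact ⟨.some ⟨x, hx⟩ ⟨y, hy⟩ h0, rfl⟩

theorem pm {u : QB} {n : ℕ} (hu : u ^ 2 = (n : QB)) (σ : QB ≃ₐ[ℚ] QB) :
    σ u = u ∨ σ u = -u := by
  apply sq_eq_sq_iff_eq_or_eq_neg.1
  rw [← map_pow, hu, map_natCast]

theorem pmz {u : QB} {n : ℤ} (hu : u ^ 2 = (n : QB)) (σ : QB ≃ₐ[ℚ] QB) :
    σ u = u ∨ σ u = -u := by
  apply sq_eq_sq_iff_eq_or_eq_neg.1
  rw [← map_pow, hu, map_intCast]

/-- automorphisms with the same signs agree on the multiquadratic field -/
theorem agree {l : ℕ} (D : Fin l → ℤ) (r : Fin l → QB) (hr : ∀ i, r i ^ 2 = (D i : QB))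
    {σ τ : QB ≃ₐ[ℚ] QB} (h : ∀ i, σ (r i) = r i ↔ τ (r i) = r i) :
    τ⁻¹ * σ ∈ (KD D).fixingSubgroup := by
  have key : ∀ x ∈ KD D, σ x = τ x := by
    intro x hx
    unfold KD at hx
    induction hx using IntermediateField.adjoin_induction with
    | mem u hu =>
      obtain ⟨i, hu⟩ := hu
      have h1 : σ (r i) = τ (r i) := by
        by_cases h2 : σ (r i) = r i
        · rw [h2, (h i).1 h2]
        · rw [(pmz (hr i) σ).resolve_left h2,
            (pmz (hr i) τ).resolve_left fun h3 => h2 ((h i).2 h3)]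
      rcases sq_eq_sq_iff_eq_or_eq_neg.1 (hu.trans (hr i).symm) with h2 | h2
      · rw [h2, h1]
      · rw [h2, map_neg, map_neg, h1]
    | algebraMap q => rw [AlgEquiv.commutes, AlgEquiv.commutes]
    | add x y _ _ h1 h2 => rw [map_add, map_add, h1, h2]
    | inv x _ h1 => rw [map_inv₀, map_inv₀, h1]
    | mul x y _ _ h1 h2 => rw [map_mul, map_mul, h1, h2]
  rw [IntermediateField.mem_fixingSubgroup_iff]
  intro x hx
  show τ⁻¹ (σ x) = x
  rw [key x hx]
  exact τ.symm_apply_apply x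

/-- few squarefree numbers have the same restricted cocycle -/
theorem cnt {a b : ℤ} (hab : a ≠ b) {l : ℕ} (D : Fin l → ℤ) (s : ℕ → QB)
    (hs : ∀ d : ℕ, s d ^ 2 = (d : QB)) (Q : Finset ℕ) (hsq : ∀ d ∈ Q, Squarefree d)
    (h : ∀ d ∈ Q, ∀ e ∈ Q, ∀ σ ∈ (KD D).fixingSubgroup, cs a b (s d) σ = cs a b (s e) σ) :
    Q.card ≤ 2 ^ (2 ^ l) := by
  rcases Q.eq_empty_or_nonempty with rfl | ⟨d1, hd1⟩
  · simp
  have hroot : ∀ i : Fin l, ∃ r : QB, r ^ 2 = (D i : QB) := fun i =>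
    IsAlgClosed.exists_pow_nat_eq _ (by norm_num)
  choose r hr using hroot
  have hT := T0_ne hab
  have key : ∀ d ∈ Q, ∀ σ ∈ (KD D).fixingSubgroup, σ (s d * s d1) = s d * s d1 := by
    intro d hd σ hσ
    have h1 := h d hd d1 hd1 σ hσ
    unfold cs at h1
    rw [map_mul]
    by_cases h2 : σ (s d) = s d
    · by_cases h3 : σ (s d1) = s d1
      · rw [h2, h3]
      · rw [if_pos h2, if_neg h3] at h1
        exact absurd h1.symm hT
    · by_cases h3 : σ (s d1) = s d1
      · rw [if_neg h2, if_pos h3] at h1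
        exact absurd h1 hT
      · rw [(pm (hs d) σ).resolve_left h2, (pm (hs d1) σ).resolve_left h3, neg_mul_neg]
  let S : ℕ → Set (Fin l → Bool) := fun d =>
    {g | ∃ σ : QB ≃ₐ[ℚ] QB, (∀ i, (g i = true ↔ σ (r i) = r i)) ∧
      σ (s d * s d1) = s d * s d1}
  have hS : ∀ d ∈ Q, ∀ σ : QB ≃ₐ[ℚ] QB, σ (s d * s d1) = s d * s d1 ↔
      (fun i => decide (σ (r i) = r i)) ∈ S d := by
    intro d hd σ
    constructor
    · intro h1
      exact ⟨σ, fun i => decide_eq_true_iff, h1⟩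
    · rintro ⟨τ, hτ, h1⟩
      have h2 : τ⁻¹ * σ ∈ (KD D).fixingSubgroup := agree D r hr fun i =>
        decide_eq_true_iff.symm.trans (hτ i)
      have h3 := key d hd _ h2
      have h4 : τ⁻¹ (σ (s d * s d1)) = s d * s d1 := h3
      have h5 : σ (s d * s d1) = τ (s d * s d1) := (AlgEquiv.symm_apply_eq τ).1 h4
      rw [h5, h1]
  have hinj : Set.InjOn S (Q : Set ℕ) := by
    intro d hd e he hde
    have hd' : d ∈ Q := hd
    have he' : e ∈ Q := he
    have hiff : ∀ σ : QB ≃ₐ[ℚ] QB, σ (s d * s d1) = s d * s d1 ↔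
        σ (s e * s d1) = s e * s d1 := by
      intro σ
      rw [hS d hd' σ, hS e he' σ, hde]
    have pm2 : ∀ (d : ℕ) (σ : QB ≃ₐ[ℚ] QB), σ (s d * s d1) = s d * s d1 ∨
        σ (s d * s d1) = -(s d * s d1) := by
      intro d σ
      apply sq_eq_sq_iff_eq_or_eq_neg.1
      rw [← map_pow, mul_pow, hs, hs, map_mul, map_natCast, map_natCast]
    have h10 : ((d1 : ℕ) : QB) ≠ 0 := by exact_mod_cast (hsq d1 hd1).ne_zero
    have fx : ∀ σ : QB ≃ₐ[ℚ] QB, σ (s d * s e) = s d * s e := by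
      intro σ
      have h6 : (s d * s d1) * (s e * s d1) = (d1 : QB) * (s d * s e) := by
        rw [← hs d1]; ring
      have h7 : σ ((s d * s d1) * (s e * s d1)) = (s d * s d1) * (s e * s d1) := by
        rw [map_mul]
        by_cases h2 : σ (s d * s d1) = s d * s d1
        · rw [h2, (hiff σ).1 h2]
        · rw [(pm2 d σ).resolve_left h2, (pm2 e σ).resolve_left fun h3 => h2 ((hiff σ).2 h3),
            neg_mul_neg]
      rw [h6, map_mul, map_natCast] at h7
      exact mul_left_cancel₀ h10 h7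
    have := galQB
    obtain ⟨q, hq⟩ := (InfiniteGalois.mem_range_algebraMap_iff_fixed (k := ℚ) (s d * s e)).2 fx
    refine sqf_eq (hsq d hd') (hsq e he') q ?_
    apply (algebraMap ℚ QB).injective
    rw [map_pow, hq, map_mul, map_natCast, map_natCast, mul_pow, hs, hs]
  have h1 := Finset.card_le_card_of_injOn S (t := Finset.univ) (fun _ _ => Finset.mem_univ _) hinj
  refine h1.trans (le_of_eq ?_)
  rw [Finset.card_univ, Fintype.card_set]
  simp

theorem kerl : KERL := by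
  intro a b ha hb hab l D hfg Q n hsq hsha hcard
  have hroot : ∀ d : ℕ, ∃ s : QB, s ^ 2 = (d : QB) := fun d =>
    IsAlgClosed.exists_pow_nat_eq _ (by norm_num)
  choose s hs using hroot
  let f : ℕ → ((KD D).fixingSubgroup → Pt (F4 a b) QB) := fun d σ => cs a b (s d) σ
  have hmem : ∀ d ∈ Q, f d ∈ shaCocK (F4 a b) (KD D) := fun d hd =>
    res_mem _ _ (hsha d hd _ (hs d))
  let c : ℕ → ShaK (F4 a b) (KD D) := fun d =>
    if h : f d ∈ shaCocK (F4 a b) (KD D) then QuotientAddGroup.mk ⟨f d, h⟩ else 0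
  have hc : ∀ d (hd : d ∈ Q), c d = QuotientAddGroup.mk ⟨f d, hmem d hd⟩ :=
    fun d hd => dif_pos (hmem d hd)
  obtain ⟨Y, hY, hY'⟩ := gen_bound a b (KD D) (KD D).val hfg
  have hfib : ∀ y ∈ Q.image c, (Q.filter fun d => c d = y).card ≤
      2 ^ (2 ^ l) * (16 * 2 ^ rkp (F4 a b) (KD D)) := by
    intro y hy
    obtain ⟨d0, hd0, rfl⟩ := Finset.mem_image.1 hy
    have hH : ∀ d ∈ Q.filter (fun d => c d = c d0), ∃ H ∈ Y, ∀ σ : (KD D).fixingSubgroup,
        cs a b (s d) σ = cs a b (s d0) σ +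
          (act (F4 a b) (σ : QB ≃ₐ[ℚ] QB).toAlgHom H - H) := by
      intro d hd
      obtain ⟨hdD, hdc⟩ := Finset.mem_filter.1 hd
      rw [hc d hdD, hc d0 hd0, eq_comm, QuotientAddGroup.eq] at hdc
      obtain ⟨P, hP⟩ := AddSubgroup.mem_addSubgroupOf.1 hdc
      have hP' : ∀ σ : (KD D).fixingSubgroup, -(cs a b (s d0) σ) + cs a b (s d) σ =
        act (F4 a b) (σ : QB ≃ₐ[ℚ] QB).toAlgHom P - P := hP
      have hfix : ∀ σ : (KD D).fixingSubgroup,
          act (F4 a b) (σ : QB ≃ₐ[ℚ] QB).toAlgHom (P + P) = P + P := by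
        intro σ
        have h1 := hP' σ
        have h2 : (act (F4 a b) (σ : QB ≃ₐ[ℚ] QB).toAlgHom P - P) +
            (act (F4 a b) (σ : QB ≃ₐ[ℚ] QB).toAlgHom P - P) = 0 := by
          rw [← h1]
          calc -(cs a b (s d0) σ) + cs a b (s d) σ + (-(cs a b (s d0) σ) + cs a b (s d) σ)
              = -(cs a b (s d0) σ + cs a b (s d0) σ) + (cs a b (s d) σ + cs a b (s d) σ) := by
                abel
            _ = 0 := by rw [cs_add, cs_add, neg_zero, add_zero]
        rw [map_add]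
        calc act (F4 a b) (σ : QB ≃ₐ[ℚ] QB).toAlgHom P + act (F4 a b) (σ : QB ≃ₐ[ℚ] QB).toAlgHom P
            = ((act (F4 a b) (σ : QB ≃ₐ[ℚ] QB).toAlgHom P - P) +
              (act (F4 a b) (σ : QB ≃ₐ[ℚ] QB).toAlgHom P - P)) + (P + P) := by
              abel
          _ = P + P := by rw [h2, zero_add]
      obtain ⟨R, hR⟩ := fixK (F4 a b) (KD D) hfix
      obtain ⟨q, hq⟩ := hY' P ⟨R, hR⟩
      refine ⟨P - act (F4 a b) (KD D).val q, hq, fun σ => ?_⟩
      have hfq : act (F4 a b) (σ : QB ≃ₐ[ℚ] QB).toAlgHom (act (F4 a b) (KD D).val q) =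
          act (F4 a b) (KD D).val q := by
        have h3 := act_act (F4 a b) (KD D).val (σ : QB ≃ₐ[ℚ] QB).toAlgHom q
        have h4 : ((σ : QB ≃ₐ[ℚ] QB).toAlgHom.comp (KD D).val) = (KD D).val := by
          apply AlgHom.ext
          intro x
          exact (IntermediateField.mem_fixingSubgroup_iff _ _).1 σ.2 x x.2
        rw [h4] at h3
        exact h3
      rw [map_sub, hfq]
      have h1 := hP' σ
      calc cs a b (s d) σ = cs a b (s d0) σ + (-(cs a b (s d0) σ) + cs a b (s d) σ) := by abel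
        _ = cs a b (s d0) σ + (act (F4 a b) (σ : QB ≃ₐ[ℚ] QB).toAlgHom P - P) := by rw [h1]
        _ = _ := by abel
    let H : ℕ → Pt (F4 a b) QB := fun d =>
      if h : d ∈ Q.filter (fun d => c d = c d0) then Classical.choose (hH d h) else 0
    have hH1 : ∀ d (h : d ∈ Q.filter (fun d => c d = c d0)), H d = Classical.choose (hH d h) :=
      fun d h => dif_pos h
    refine (Finset.card_le_mul_card_image_of_maps_to (f := H) (t := Y) ?_ (2 ^ (2 ^ l)) ?_).trans
      (Nat.mul_le_mul_left _ hY)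
    · intro d hd
      rw [hH1 d hd]
      exact (Classical.choose_spec (hH d hd)).1
    · intro y _
      refine cnt hab D s hs _
        (fun d hd => hsq d (Finset.mem_filter.1 (Finset.mem_filter.1 hd).1).1) ?_
      intro d hd e he σ hσ
      obtain ⟨hd1, hd2⟩ := Finset.mem_filter.1 hd
      obtain ⟨he1, he2⟩ := Finset.mem_filter.1 he
      have h1 := (Classical.choose_spec (hH d hd1)).2 ⟨σ, hσ⟩
      have h2 := (Classical.choose_spec (hH e he1)).2 ⟨σ, hσ⟩
      rw [← hH1 d hd1, hd2] at h1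
      rw [← hH1 e he1, he2] at h2
      exact h1.trans h2.symm
  have h1 := Finset.card_le_mul_card_image Q _ hfib
  have h2 : 2 ^ n ≤ (Q.image c).card := by
    have h3 : 2 ^ (2 ^ l) * (16 * 2 ^ rkp (F4 a b) (KD D)) * 2 ^ n ≤
        2 ^ (2 ^ l) * (16 * 2 ^ rkp (F4 a b) (KD D)) * (Q.image c).card := by
      refine le_trans (le_of_eq ?_) (hcard.trans h1)
      ring
    exact Nat.le_of_mul_le_mul_left h3 (by positivity)
  refine inj_of_card n (Q.image c) (fun y hy => ?_) h2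
  obtain ⟨d, hd, rfl⟩ := Finset.mem_image.1 hy
  rw [hc d hd, ← QuotientAddGroup.mk_add, QuotientAddGroup.eq_zero_iff]
  refine AddSubgroup.mem_addSubgroupOf.2 ⟨0, fun σ => ?_⟩
  show cs a b (s d) σ + cs a b (s d) σ = _
  rw [cs_add, map_zero, sub_zero]

end Pool.Agent.W919.LK.KERL
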