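import Pool.Agent.W654.SHB.Rkk
import Pool.Agent.W756.SH.Twi
import Pool.Agent.W307.LK.Stm

/-!
Project LK (owner helper307), part LK-FGK.
-/

set_option autoImplicit false

open WeierstrassCurve Pool.Agent.W262.SH Pool.Agent.W307.LK Pool.Agent.W654.SHB
open scoped Classical

namespace Pool.Agent.W919.LK.FGK

theorem fg_le {G : Type} [AddCommGroup G] {N N' : Submodule ℤ G} (h : N ≤ N') (hN : N'.FG) :
    N.FG := by
  have : IsNoetherian ℤ N' := isNoetherian_of_fg_of_noetherian N' hN
  have h3 : ((N.comap N'.subtype).map N'.subtype) = N := by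
    rw [Submodule.map_comap_subtype]
    exact inf_eq_right.2 h
  rw [← h3]
  exact (IsNoetherian.noetherian (N.comap N'.subtype)).map _

theorem fg_range (W : WeierstrassCurve ℚ) {L M : Type} [Field L] [Field M] [Algebra ℚ L]
    [Algebra ℚ M] (j : L →ₐ[ℚ] M) (h : FGp W L) :
    (LinearMap.range (act W j).toIntLinearMap).FG := by
  have h1 : Module.Finite ℤ (Pt W L) := Module.Finite.iff_addGroup_fg.2 h
  rw [LinearMap.range_eq_map]
  exact h1.fg_top.map _

theorem fg_inj (W : WeierstrassCurve ℚ) {L M : Type} [Field L] [Field M] [Algebra ℚ L]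
    [Algebra ℚ M] (j : L →ₐ[ℚ] M) (h : FGp W M) : FGp W L := by
  have h1 : Module.Finite ℤ (Pt W M) := Module.Finite.iff_addGroup_fg.2 h
  have h2 : Function.Injective (act W j).toIntLinearMap :=
    Affine.Point.map_injective (W' := W.toAffine) j
  exact Module.Finite.iff_addGroup_fg.1 (Module.Finite.of_injective (act W j).toIntLinearMap h2)

theorem fgp_eq (W : WeierstrassCurve ℚ) (L : Type) [Field L] [Algebra ℚ L] [i : DecidableEq L] :
    AddGroup.FG (Pt W L) ↔ FGp W L := by
  unfold FGp
  cases Subsingleton.elim i (fun a b => Classical.propDecidable (a = b))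
  rfl

/-- the points over a quadratic extension -/
theorem step_fg (hT : TWI) {A B D : ℤ} (hA : A ≠ 0) (hB : B ≠ 0) (hAB : A ≠ B) (hD : D ≠ 0)
    {L M : Type} [Field L] [Field M] [Algebra ℚ L] [Algebra ℚ M] (j : L →ₐ[ℚ] M) (σ : M →ₐ[ℚ] M)
    (hσ : ∀ x, σ (σ x) = x) (hfix : ∀ x, σ x = x → ∃ y, j y = x) (s : M)
    (hs : s ^ 2 = (D : M)) (hσs : σ s = -s) (hL1 : FGp (E A B) L)
    (hL2 : FGp (E (D * A) (D * B)) L) : FGp (E A B) M := by
  obtain ⟨θ, hθ⟩ := hT A B D hA hB hAB hD
  obtain ⟨hadd, hbij, hneg, hnat⟩ := hθ M s hs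
  set f : Pt (E A B) M →+ Pt (E A B) M := AddMonoidHom.id _ + act (E A B) σ with hf
  have hσσ : ∀ P, act (E A B) σ (act (E A B) σ P) = P := by
    intro P
    rcases P with _ | ⟨x, y, h⟩
    · rfl
    · have h1 : act (E A B) σ (act (E A B) σ (.some x y h)) = .some (σ (σ x)) (σ (σ y))
          (((E A B).toAffine.baseChange_nonsingular σ.injective _ _).2
            (((E A B).toAffine.baseChange_nonsingular σ.injective x y).2 h)) := rfl
      rw [h1, Affine.Point.some.injEq]
      exact ⟨hσ x, hσ y⟩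
  set g : Pt (E A B) M →+ Pt (E (D * A) (D * B)) M := AddMonoidHom.mk' (θ M s) hadd with hg
  refine Module.Finite.iff_addGroup_fg.1 ⟨?_⟩
  refine Submodule.fg_of_fg_map_of_fg_inf_ker f.toIntLinearMap ?_ ?_
  · rw [← LinearMap.range_eq_map]
    refine fg_le ?_ (fg_range (E A B) j hL1)
    rintro _ ⟨P, rfl⟩
    have h2 : act (E A B) σ (P + act (E A B) σ P) = P + act (E A B) σ P := by
      rw [map_add, hσσ, add_comm]
    obtain ⟨Q, hQ⟩ := descend (E A B) j σ hfix _ h2
    exact ⟨Q, hQ⟩
  · rw [top_inf_eq]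
    have hinj : Function.Injective g.toIntLinearMap := hbij.1
    have h1 : (LinearMap.ker f.toIntLinearMap).map g.toIntLinearMap ≤
        LinearMap.range (act (E (D * A) (D * B)) j).toIntLinearMap := by
      rintro _ ⟨P, hP, rfl⟩
      have hP0 : P + act (E A B) σ P = 0 := hP
      have hP1 : act (E A B) σ P = -P := (neg_eq_of_add_eq_zero_right hP0).symm
      have h2 : act (E (D * A) (D * B)) σ (θ M s P) = θ M s P := by
        rw [hnat M σ P, hσs, hneg, hP1]
        have h3 : g (-P) = - g P := map_neg g P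
        have h4 : θ M s (-P) = - θ M s P := h3
        rw [h4, neg_neg]
      obtain ⟨Q, hQ⟩ := descend (E (D * A) (D * B)) j σ hfix _ h2
      exact ⟨Q, hQ⟩
    have h2 := fg_le h1 (fg_range (E (D * A) (D * B)) j hL2)
    refine Submodule.fg_of_fg_map_injective g.toIntLinearMap hinj h2

theorem base {A B : ℤ} (hA : A ≠ 0) (hB : B ≠ 0) (hAB : A ≠ B) : FGp (E A B) ℚ := by
  have h := (Pool.Agent.W214.RK.half A B hA hB hAB).1
  have h2 : (E A B).baseChange ℚ = E A B := by
    unfold WeierstrassCurve.baseChange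
    exact WeierstrassCurve.map_id _
  have h3 : AddGroup.FG ((E A B).baseChange ℚ).toAffine.Point =
      AddGroup.FG (E A B).toAffine.Point :=
    congrArg (fun W : WeierstrassCurve ℚ => AddGroup.FG W.toAffine.Point) h2
  exact (fgp_eq (E A B) ℚ).1 (h3.mpr h)

theorem kd_fg (hT : TWI) (n : ℕ) (D : Fin (n + 1) → ℤ) {A B : ℤ} (hA : A ≠ 0) (hB : B ≠ 0)
    (hAB : A ≠ B) (hD : D 0 ≠ 0) (i1 : FGp (E A B) (KD (fun i : Fin n => D i.succ)))
    (i2 : FGp (E (D 0 * A) (D 0 * B)) (KD (fun i : Fin n => D i.succ))) :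
    FGp (E A B) (KD D) := by
  have := galQB
  obtain ⟨s, hs⟩ : ∃ s : QB, s ^ 2 = (D 0 : QB) := IsAlgClosed.exists_pow_nat_eq _ (by norm_num)
  by_cases hsK : s ∈ KD (fun i : Fin n => D i.succ)
  · have hK : KD D = KD (fun i : Fin n => D i.succ) := by
      refine le_antisymm ?_ (kd_le D)
      refine IntermediateField.adjoin_le_iff.2 ?_
      rintro r ⟨i, hr⟩
      rcases Fin.eq_zero_or_eq_succ i with rfl | ⟨k, rfl⟩
      · rcases sq_eq (hr.trans hs.symm) with h | h
        · rw [h]; exact hsK
        · rw [h]; exact neg_mem hsK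
      · exact gen_mem (fun i : Fin n => D i.succ) hr
    rw [hK]
    exact i1
  · have h1 : ∃ τ ∈ (KD (fun i : Fin n => D i.succ)).fixingSubgroup, τ s ≠ s := by
      by_contra hcon
      push Not at hcon
      apply hsK
      rw [← InfiniteGalois.fixedField_fixingSubgroup (KD (fun i : Fin n => D i.succ))]
      rw [IntermediateField.mem_fixedField_iff]
      exact hcon
    obtain ⟨τ, hτ, hτs⟩ := h1
    have hτK : ∀ x ∈ KD (fun i : Fin n => D i.succ), τ x = x :=
      (IntermediateField.mem_fixingSubgroup_iff _ _).1 hτ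
    have hτs2 : τ s = -s := by
      have h2 : (τ s) ^ 2 = s ^ 2 := by rw [← map_pow, hs]; simp
      rcases sq_eq h2 with h | h
      · exact absurd h hτs
      · exact h
    set σ : KD D →ₐ[ℚ] KD D := (τ.toAlgHom.comp (KD D).val).codRestrict (KD D).toSubalgebra
      (fun x => stable D τ.toAlgHom x.2) with hσ
    have hσv : ∀ x : KD D, ((σ x : KD D) : QB) = τ (x : QB) := fun x => rfl
    refine step_fg hT hA hB hAB hD (IntermediateField.inclusion (kd_le D)) σ ?_ ?_
      ⟨s, gen_mem D hs⟩ ?_ ?_ i1 i2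
    · intro x
      apply Subtype.ext
      rw [hσv, hσv]
      refine fixes D s hs (τ * τ) ?_ ?_ x x.2
      · intro y hy
        show τ (τ y) = y
        rw [hτK y hy, hτK y hy]
      · show τ (τ s) = s
        rw [hτs2, map_neg, hτs2, neg_neg]
    · intro x hx
      have hx' : τ (x : QB) = x := by
        have := congrArg (fun z : KD D => (z : QB)) hx
        exact this
      have hxK : (x : QB) ∈ KD (fun i : Fin n => D i.succ) := by
        rw [← InfiniteGalois.fixedField_fixingSubgroup (KD (fun i : Fin n => D i.succ))]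
        rw [IntermediateField.mem_fixedField_iff]
        intro g hg
        have hgK : ∀ x ∈ KD (fun i : Fin n => D i.succ), g x = x :=
          (IntermediateField.mem_fixingSubgroup_iff _ _).1 hg
        have h2 : (g s) ^ 2 = s ^ 2 := by rw [← map_pow, hs]; simp
        rcases sq_eq h2 with h | h
        · exact fixes D s hs g hgK h x x.2
        · have h3 := fixes D s hs (τ⁻¹ * g) (fun y hy => by
            show τ⁻¹ (g y) = y
            rw [hgK y hy]
            exact (AlgEquiv.symm_apply_eq τ).2 (hτK y hy).symm) (by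
            show τ⁻¹ (g s) = s
            rw [h]
            exact (AlgEquiv.symm_apply_eq τ).2 hτs2.symm) x x.2
          have h4 : τ⁻¹ (g (x : QB)) = x := h3
          have h5 : g (x : QB) = τ x := (AlgEquiv.symm_apply_eq τ).1 h4
          rw [h5, hx']
      exact ⟨⟨x, hxK⟩, Subtype.ext rfl⟩
    · apply Subtype.ext
      show s ^ 2 = _
      rw [hs]
      simp
    · apply Subtype.ext
      rw [hσv]
      exact hτs2

theorem fgk_of (hT : TWI) : FGK := by
  intro n
  induction n with
  | zero =>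
    intro D A B hA hB hAB hD
    have hK : KD D = ⊥ := by
      rw [eq_bot_iff]
      refine IntermediateField.adjoin_le_iff.2 ?_
      rintro r ⟨i, _⟩
      exact i.elim0
    exact fg_inj (E A B) ((IntermediateField.equivOfEq hK).trans
      (IntermediateField.botEquiv ℚ QB)).toAlgHom (base hA hB hAB)
  | succ n ih =>
    intro D A B hA hB hAB hD
    exact kd_fg hT n D hA hB hAB (hD 0) (ih (fun i => D i.succ) A B hA hB hAB (fun i => hD _))
      (ih (fun i => D i.succ) (D 0 * A) (D 0 * B) (mul_ne_zero (hD 0) hA)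
        (mul_ne_zero (hD 0) hB) (fun h => hAB (mul_left_cancel₀ (hD 0) h)) (fun i => hD _))

theorem fgk : FGK := fgk_of Pool.Agent.W756.SH.Twi.twi

end Pool.Agent.W919.LK.FGK
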